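import Pool.Agent.N343.AS.Stm

/-! AS/ONE: one level at the exceptional point (helper344). -/

set_option autoImplicit false

namespace Pool.Agent.N344.AS.ONE

open Pool.Agent.N343.AS Finset

theorem Q_mono : Monotone Q := monotone_nat_of_le_succ fun i => by
  show Q i ≤ Q i + (i + 5)
  omega

theorem E_sub (N : ℕ) : E (N + 1) - E N = Q N + N + L N := by
  show 2 * E N + Q N + 3 * N + 12 - E N = Q N + N + (E N + 2 * N + 12)
  omega

theorem Z_pos (N : ℕ) : 0 < Z N := by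
  unfold Z
  positivity

theorem main (hR : S_RR) (hT : S_TOT) (hD : S_DEC) (hU : S_UNQ) : S_ONE := by
  intro N i m κ κ' S j hi hκ hκ1 hκ'0 hκ'1 hj heq
  obtain ⟨ν, lam, ref, s, hν, hlam, href, hs, hsum, hrest⟩ := hD N S
  obtain ⟨hR1, -, hR3⟩ := hR
  obtain ⟨-, -, hT3⟩ := hT
  have hZ := Z_pos (N + 1)
  have hQi : Q i ≤ Q N := Q_mono hi
  have hD' : Z N = 2 ^ (Q N - Q i) * 2 ^ (Q i) * 2 ^ (N + L N) * Z (N + 1) := by
    rw [← hT3 N, E_sub, ← pow_add, ← pow_add]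
    congr 2
    omega
  have hW0 : (0 : ℝ) < 2 ^ (N + L N) := by positivity
  have hUl : ∀ l, (U N l : ℝ) = 2 ^ (Q N - Q l) * 2 ^ (N + L N) := by
    intro l
    unfold U
    rw [← pow_add, ← add_assoc]
    push_cast
    rfl
  have hWb : (4096 : ℝ) * 4 ^ N ≤ 2 ^ (N + L N) := by
    have h1 : (4096 : ℝ) * 4 ^ N = 2 ^ (2 * N + 12) := by
      rw [pow_add, pow_mul]
      norm_num
      ring
    rw [h1]
    refine pow_le_pow_right₀ (by norm_num) ?_
    unfold L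
    omega
  have hlamW : (lam : ℝ) * 2 ^ N + 2 ^ N ≤ 2 ^ (N + L N) := by
    have h1 : ((lam + 1 : ℕ) : ℝ) ≤ ((2 ^ (L N) : ℕ) : ℝ) := by exact_mod_cast hlam
    push_cast at h1
    rw [pow_add]
    nlinarith [show (0 : ℝ) < 2 ^ N by positivity]
  have hlam0 : (0 : ℝ) ≤ (lam : ℝ) * 2 ^ N := by positivity
  have h24 : (2 : ℝ) ^ N ≤ 4 ^ N := pow_le_pow_left₀ (by norm_num) (by norm_num) N
  have h14 : (1 : ℝ) ≤ 4 ^ N := one_le_pow₀ (by norm_num)
  have hvv : 3 * (vv N : ℝ) + 1 = 64 * 4 ^ N := by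
    have h1 : ((3 * vv N + 1 : ℕ) : ℝ) = ((4 ^ (N + 3) : ℕ) : ℝ) := by rw [hR3 N]
    push_cast at h1
    rw [h1, pow_add]
    norm_num
    ring
  have href' : -(4 : ℝ) ^ N ≤ ref ∧ (ref : ℝ) ≤ 4 ^ N := by
    rw [abs_le] at href
    exact ⟨by exact_mod_cast href.1, by exact_mod_cast href.2⟩
  have hj' : -(2 : ℝ) ^ N ≤ j ∧ (j : ℝ) ≤ 2 ^ N := by
    rw [abs_le] at hj
    exact ⟨by exact_mod_cast hj.1, by exact_mod_cast hj.2⟩
  rw [abs_le] at hs
  -- the equation in units of `Z (N + 1)`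
  have e1 : (vv N : ℝ) + m * 2 ^ (Q N - Q i) * 2 ^ (N + L N) =
      (∑ l ∈ range (N + 1), (ν l : ℝ) * U N l + lam * 2 ^ N + ref + s) + j + κ' := by
    have h1 : ((vv N : ℝ) + m * 2 ^ (Q N - Q i) * 2 ^ (N + L N)) * Z (N + 1) =
        ((∑ l ∈ range (N + 1), (ν l : ℝ) * U N l + lam * 2 ^ N + ref + s) + j + κ') *
          Z (N + 1) := by
      have h2 := heq
      rw [hR1 N, hκ, hD', hsum] at h2
      have h3 : (m : ℝ) / 2 ^ (Q i) * (2 ^ (Q N - Q i) * 2 ^ (Q i) * 2 ^ (N + L N) * Z (N + 1)) =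
          m * 2 ^ (Q N - Q i) * 2 ^ (N + L N) * Z (N + 1) := by
        field_simp
      rw [h3] at h2
      linarith
    exact mul_right_cancel₀ hZ.ne' h1
  have e2 : ∑ l ∈ range (N + 1), (ν l : ℝ) * U N l =
      (∑ l ∈ range (N + 1), (ν l : ℝ) * 2 ^ (Q N - Q l)) * 2 ^ (N + L N) := by
    rw [Finset.sum_mul]
    refine Finset.sum_congr rfl fun l _ => ?_
    rw [hUl]
    ring
  set g : ℤ := (m : ℤ) * 2 ^ (Q N - Q i) - ∑ l ∈ range (N + 1), (ν l : ℤ) * 2 ^ (Q N - Q l)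
    with hg
  have e3 : (g : ℝ) * 2 ^ (N + L N) = lam * 2 ^ N + ref + s + j + κ' - vv N := by
    have h1 : (g : ℝ) = m * 2 ^ (Q N - Q i) - ∑ l ∈ range (N + 1), (ν l : ℝ) * 2 ^ (Q N - Q l) := by
      rw [hg]
      push_cast
      rfl
    rw [h1, sub_mul, ← e2]
    linarith
  have g1 : g < 1 := by
    by_contra hc
    have hc' : (1 : ℝ) ≤ (g : ℝ) := by exact_mod_cast not_lt.1 hc
    have : (2 : ℝ) ^ (N + L N) ≤ (g : ℝ) * 2 ^ (N + L N) := le_mul_of_one_le_left hW0.le hc'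
    linarith [href'.2, hj'.2, hs.2]
  have g2 : -1 < g := by
    by_contra hc
    have hc' : (g : ℝ) ≤ -1 := by exact_mod_cast not_lt.1 hc
    have : (g : ℝ) * 2 ^ (N + L N) ≤ (-1) * 2 ^ (N + L N) := mul_le_mul_of_nonneg_right hc' hW0.le
    linarith [href'.1, hj'.1, hs.1]
  have g0 : g = 0 := by omega
  have hnat : ∑ l ∈ range (N + 1), ν l * 2 ^ (Q N - Q l) = m * 2 ^ (Q N - Q i) := by
    have h1 : (m : ℤ) * 2 ^ (Q N - Q i) = ∑ l ∈ range (N + 1), (ν l : ℤ) * 2 ^ (Q N - Q l) := by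
      rw [hg] at g0
      exact sub_eq_zero.1 g0
    have h2 : ((∑ l ∈ range (N + 1), ν l * 2 ^ (Q N - Q l) : ℕ) : ℤ) =
        ((m * 2 ^ (Q N - Q i) : ℕ) : ℤ) := by
      push_cast
      exact h1.symm
    exact_mod_cast h2
  obtain ⟨⟨r, hr⟩, z, hz⟩ := hrest i hi (hU N i ν m hi hν hnat)
  rw [g0, Int.cast_zero, zero_mul] at e3
  -- the integer `s + κ'`
  have e4 : s + κ' = (((vv N : ℤ) - lam * 2 ^ N - ref - j : ℤ) : ℝ) := by
    push_cast
    linarith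
  set tt : ℤ := (vv N : ℤ) - lam * 2 ^ N - ref - j with htt
  have t0 : 0 ≤ tt := by
    have : (-1 : ℝ) < tt := by rw [← e4]; linarith [hs.1]
    have : (-1 : ℤ) < tt := by exact_mod_cast this
    omega
  have t1 : tt ≤ 1 := by
    have : (tt : ℝ) < 2 := by rw [← e4]; linarith [hs.2]
    have : tt < 2 := by exact_mod_cast this
    omega
  have hQp : (0 : ℝ) < 2 ^ (Q i) := by positivity
  have hlamr : (lam : ℤ) * 2 ^ N = lam * 2 ^ i * 2 ^ (N - i) := by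
    rw [mul_assoc, ← pow_add]
    congr 2
    omega
  refine ⟨⟨(tt * 2 ^ (Q i) - z).toNat, ?_⟩, -(lam * 2 ^ i) - r, ?_⟩
  · have h1 : κ' = ((tt * 2 ^ (Q i) - z : ℤ) : ℝ) / 2 ^ (Q i) := by
      rw [eq_div_iff hQp.ne']
      push_cast
      have : κ' = tt - s := by linarith
      rw [this, hz]
      field_simp
    have h2 : 0 ≤ tt * 2 ^ (Q i) - z := by
      by_contra hc
      rw [not_le] at hc
      have : ((tt * 2 ^ (Q i) - z : ℤ) : ℝ) < 0 := by exact_mod_cast hc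
      have := div_neg_of_neg_of_pos this hQp
      linarith
    rw [h1]
    congr 1
    have h3 : (((tt * 2 ^ (Q i) - z).toNat : ℤ) : ℝ) = ((tt * 2 ^ (Q i) - z : ℤ) : ℝ) := by
      rw [Int.toNat_of_nonneg h2]
    rw [← h3]
    exact Int.cast_natCast _
  · have h5 : (-((lam : ℤ) * 2 ^ i) - r) * 2 ^ (N - i) = -(lam * 2 ^ N) - ref := by
      rw [hr, hlamr]
      ring
    rw [h5]
    rcases (show tt = 0 ∨ tt = 1 by omega) with h | h
    · left
      rw [htt] at h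
      linarith
    · right
      rw [htt] at h
      linarith

end Pool.Agent.N344.AS.ONE
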